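import Pool.Agent.W826.PB.Props

set_option autoImplicit false

namespace Pool.Agent.W654.PB

open Set

theorem partA (ψ ψ' : ℝ → ℝ) (ε : ℝ) (he : 0 < ε) (he4 : ε ≤ 1 / 4)
    (hd : ∀ s, 0 ≤ s → HasDerivAt ψ (ψ' s) s) (h0 : ψ 0 ≤ ε)
    (hb : ∀ s, 0 ≤ s → ψ s ≤ ε * Real.exp (-s / 2) → ψ' s ≤ -(ψ s * (1 - ψ s))) :
    ∀ s, 0 ≤ s → ψ s ≤ ε * Real.exp (-s / 2) := by
  intro s hs
  have hB : ∀ x : ℝ, HasDerivAt (fun x : ℝ => ε * Real.exp (-x / 2))
      (ε * (Real.exp (-x / 2) * (-1 / 2))) x := by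
    intro x
    have h1 : HasDerivAt (fun x : ℝ => -x / 2) (-1 / 2) x := by
      have := ((hasDerivAt_id x).neg).div_const 2
      exact this
    exact (h1.exp).const_mul ε
  refine image_le_of_deriv_right_lt_deriv_boundary (f := ψ) (f' := ψ') (a := 0) (b := s)
    (fun x hx => (hd x hx.1).continuousAt.continuousWithinAt)
    (fun x hx => (hd x hx.1).hasDerivWithinAt) (by simpa using h0) hB ?_ ⟨hs, le_rfl⟩
  intro x hx hxe
  have h1 := hb x hx.1 hxe.le
  have hexp : Real.exp (-x / 2) ≤ 1 := by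
    rw [Real.exp_le_one_iff]
    linarith [hx.1]
  have hpos : 0 < ε * Real.exp (-x / 2) := by positivity
  have hle : ε * Real.exp (-x / 2) ≤ 1 / 4 := by nlinarith
  rw [hxe] at h1
  nlinarith

theorem main : Pool.Agent.W826.PB.P_calc := by
  intro ψ ψ' ε he he4 hpos hd h0 hb s hs
  have hA := partA ψ ψ' ε he he4 hd h0 hb
  have hE : ∀ x : ℝ, HasDerivAt (fun x : ℝ => x + 2 * ε * Real.exp (-x / 2))
      (1 + 2 * ε * (Real.exp (-x / 2) * (-1 / 2))) x := by
    intro x
    have h1 : HasDerivAt (fun x : ℝ => -x / 2) (-1 / 2) x := by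
      have := ((hasDerivAt_id x).neg).div_const 2
      exact this
    exact (hasDerivAt_id x).add ((h1.exp).const_mul (2 * ε))
  have hh : ∀ x : ℝ, 0 ≤ x → HasDerivAt
      (fun x : ℝ => ψ x * Real.exp (x + 2 * ε * Real.exp (-x / 2)))
      (ψ' x * Real.exp (x + 2 * ε * Real.exp (-x / 2)) +
        ψ x * (Real.exp (x + 2 * ε * Real.exp (-x / 2)) *
          (1 + 2 * ε * (Real.exp (-x / 2) * (-1 / 2))))) x := by
    intro x hx
    exact (hd x hx).mul (hE x).exp
  have hanti : AntitoneOn (fun x : ℝ => ψ x * Real.exp (x + 2 * ε * Real.exp (-x / 2)))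
      (Ici 0) := by
    refine antitoneOn_of_deriv_nonpos (convex_Ici 0) ?_ ?_ ?_
    · intro x hx
      exact (hh x hx).continuousAt.continuousWithinAt
    · intro x hx
      rw [interior_Ici] at hx
      exact (hh x (le_of_lt hx)).differentiableAt.differentiableWithinAt
    · intro x hx
      rw [interior_Ici] at hx
      have hx0 : 0 ≤ x := le_of_lt hx
      rw [(hh x hx0).deriv]
      have h1 := hA x hx0
      have h2 := hb x hx0 h1
      have h3 := hpos x hx0
      have hEp := Real.exp_pos (x + 2 * ε * Real.exp (-x / 2))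
      have h4 : ψ' x + ψ x * (1 + 2 * ε * (Real.exp (-x / 2) * (-1 / 2))) ≤ 0 := by
        have h5 : ψ x * ψ x ≤ ψ x * (ε * Real.exp (-x / 2)) := mul_le_mul_of_nonneg_left h1 h3.le
        nlinarith
      have h6 : ψ' x * Real.exp (x + 2 * ε * Real.exp (-x / 2)) +
        ψ x * (Real.exp (x + 2 * ε * Real.exp (-x / 2)) *
          (1 + 2 * ε * (Real.exp (-x / 2) * (-1 / 2)))) =
          Real.exp (x + 2 * ε * Real.exp (-x / 2)) *
            (ψ' x + ψ x * (1 + 2 * ε * (Real.exp (-x / 2) * (-1 / 2)))) := by ring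
      rw [h6]
      exact mul_nonpos_of_nonneg_of_nonpos hEp.le h4
  have h1 := hanti (mem_Ici.2 le_rfl) (mem_Ici.2 hs) hs
  simp only [neg_zero, zero_div, Real.exp_zero, mul_one, zero_add] at h1
  have h2 : ψ 0 * Real.exp (2 * ε) ≤ 1 := by
    have e1 : Real.exp (2 * ε) ≤ Real.exp 1 := Real.exp_le_exp.2 (by linarith)
    have e2 := Real.exp_one_lt_d9
    have e3 := hpos 0 le_rfl
    have e4 := Real.exp_pos (2 * ε)
    nlinarith
  have h3 : Real.exp s ≤ Real.exp (s + 2 * ε * Real.exp (-s / 2)) :=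
    Real.exp_le_exp.2 (by
      have : 0 < 2 * ε * Real.exp (-s / 2) := by positivity
      linarith)
  have h4 : ψ s * Real.exp s ≤ 1 := by
    have := mul_le_mul_of_nonneg_left h3 (hpos s hs).le
    linarith
  rw [Real.exp_neg, ← one_div, le_div_iff₀ (Real.exp_pos s)]
  exact h4

end Pool.Agent.W654.PB
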